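import Mathlib
import Pool.Agent.Results.MP_293d80_gt.CounterexampleUnderCH
import Pool.Agent.Helper292.ForceCH

/-!
# MP_293d80_gt: Split(Λ,Λ) is consistently not additive

First half: there is a forcing notion all of whose conditions force, over any ground model, that
`ω₁` is preserved and that the continuum hypothesis holds.  Second half: the continuum hypothesis
gives two sets of reals with Split(Λ,Λ) whose union does not satisfy Split(Λ,Λ).
-/

set_option autoImplicit false

open Cardinal
open Pool.Agent.Helper292.ForceCH (OmegaOnePreserved CHHolds)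

namespace Pool.Agent.Results.MP_293d80_gt.ConsistentlyNotAdditive

/-- A large open cover of the set of reals `X`: a family of open subsets of `X`, not containing `X`
itself, such that every point of `X` lies in infinitely many members of the family. -/
def IsLargeCover {X : Set ℝ} (𝒰 : Set (Set X)) : Prop :=
  (∀ U ∈ 𝒰, IsOpen U) ∧ Set.univ ∉ 𝒰 ∧ ∀ x : X, {U ∈ 𝒰 | x ∈ U}.Infinite

/-- The property Split(Λ,Λ) of sets of reals: every large open cover is the union of two disjoint
subfamilies, each of which is itself a large open cover. -/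
def SplitLL (X : Set ℝ) : Prop :=
  ∀ 𝒰 : Set (Set X), IsLargeCover 𝒰 →
    ∃ 𝒱 𝒲 : Set (Set X), 𝒱 ∪ 𝒲 = 𝒰 ∧ Disjoint 𝒱 𝒲 ∧ IsLargeCover 𝒱 ∧ IsLargeCover 𝒲

/-- Some forcing notion preserves `ω₁` and forces the continuum hypothesis over any ground model;
and under the continuum hypothesis there are two sets of reals with Split(Λ,Λ) whose union fails
Split(Λ,Λ). -/
theorem result :
    (∃ (P : Type) (_ : Preorder P), Nonempty P ∧
      ∀ p : P, p ∈ OmegaOnePreserved P ∧ p ∈ CHHolds P) ∧
    ((ℵ₁ : Cardinal.{0}) = 𝔠 →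
      ∃ X Y : Set ℝ, SplitLL X ∧ SplitLL Y ∧ ¬ SplitLL (X ∪ Y)) := by
  refine ⟨?_, fun hCH => ?_⟩
  · obtain ⟨P, hP, hne, h⟩ := Pool.Agent.Helper292.ForceCH.exists_forcing
    exact ⟨P, hP, hne, fun p => ⟨(h p).1, (h p).2.2⟩⟩
  · exact Pool.Agent.Results.MP_293d80_gt.CounterexampleUnderCH.exists_counterexample hCH.symm.le

end Pool.Agent.Results.MP_293d80_gt.ConsistentlyNotAdditive
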